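import Pool.Agent.Q155.GN.Stm

/-! # Project GN of helper155: a mean value with the character of the norm modulo 8 (JOB GN-HA4) -/

set_option autoImplicit false

namespace Pool.Agent.Q121.GN

open Finset
open H385 (ZI RQ im1 nrm BX)
open Pool.Agent.W164.RC (unit_norm)
open Pool.Agent.H304R2.EC.A1 (prim prim_mul prim_cancel prim_one prim_norm_odd eq_one_of_prim prim_ne_zero)
open Pool.Agent.Y699

/-- the character of the norm modulo `8` -/
noncomputable def ch (n : ZI) : ℝ := if nrm n % 8 = 5 then -1 else 1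

lemma ch_cases (n : ZI) : ch n = 0 ∨ ch n = 1 ∨ ch n = -1 := by
  unfold ch
  split_ifs
  · exact Or.inr (Or.inr rfl)
  · exact Or.inr (Or.inl rfl)

lemma nrm8 {a : ZI} (h : prim a) : nrm a % 8 = 1 ∨ nrm a % 8 = 5 := by
  obtain ⟨h1, h2⟩ := h
  obtain ⟨k, hk⟩ : ∃ k, a.im = 2 * k := ⟨a.im / 2, by omega⟩
  obtain ⟨m, hm⟩ : ∃ m, a.re = 1 - 2 * k + 4 * m := ⟨(a.re + a.im - 1) / 4, by omega⟩
  have h3 := nrm_eq' a
  rw [hk, hm] at h3
  have h4 : (nrm a : ℤ) = 1 - 4 * k + 8 * (k ^ 2 + 2 * m ^ 2 + m - 2 * k * m) := by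
    rw [h3]
    ring
  generalize k ^ 2 + 2 * m ^ 2 + m - 2 * k * m = t at h4
  omega

lemma ch_mul {a b : ZI} (ha : prim a) (hb : prim b) : ch (a * b) = ch a * ch b := by
  unfold ch
  rw [nrm_mul]
  rcases nrm8 ha with h1 | h1 <;> rcases nrm8 hb with h2 | h2
  · rw [if_neg (by rw [Nat.mul_mod, h1, h2]; norm_num), if_neg (by omega), if_neg (by omega)]
    norm_num
  · rw [if_pos (by rw [Nat.mul_mod, h1, h2]), if_neg (by omega), if_pos h2]
    norm_num
  · rw [if_pos (by rw [Nat.mul_mod, h1, h2]), if_pos h1, if_neg (by omega)]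
    norm_num
  · rw [if_neg (by rw [Nat.mul_mod, h1, h2]; norm_num), if_pos h1, if_pos h2]
    norm_num

lemma ch_one : ch 1 = 1 := by
  unfold ch
  rw [nrm_one, if_neg (by norm_num)]

/-- comparison of the two convolutions -/
theorem conv_le' : ∀ n : ZI, prim n → mf (fun π => 1 + ch π) n ≤ ∑ d ∈ DP n, ch d := by
  have hχ := ch_cases
  have hnn : ∀ n, 0 ≤ mf (fun π => 1 + ch π) n := by
    intro n
    apply mf_nonneg
    intro π
    rcases hχ π with h | h | h <;> rw [h] <;> norm_num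
  have key : ∀ N : ℕ, ∀ n : ZI, nrm n = N → prim n →
      mf (fun π => 1 + ch π) n ≤ ∑ d ∈ DP n, ch d := by
    intro N
    induction N using Nat.strong_induction_on with
    | _ N ih =>
      intro n hN hn
      have hn0 := prim_ne_zero hn
      by_cases h1 : n = 1
      · rw [h1]
        have e1 : mf (fun π => 1 + ch π) 1 = 1 := by unfold mf; rw [PD_one]; simp
        have e2 : DP (1 : ZI) = {1} := by
          ext d
          rw [mem_DP one_ne_zero, mem_singleton]
          constructor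
          · rintro ⟨a1, a2⟩
            have h2 := isUnit_of_dvd_one a2
            obtain ⟨u, rfl⟩ := h2
            exact eq_one_of_prim a1 (unit_norm u)
          · rintro rfl
            exact ⟨prim_one, dvd_rfl⟩
        rw [e1, e2, sum_singleton, ch_one]
      · have hnu : ¬ IsUnit n := by
          intro h2
          obtain ⟨u, hu⟩ := h2
          apply h1
          rw [← hu]
          rw [← hu] at hn
          exact eq_one_of_prim hn (unit_norm u)
        obtain ⟨ρ, hρ, hρn⟩ := WfDvdMonoid.exists_irreducible_factor hnu hn0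
        obtain ⟨π, hπ, hass⟩ := exists_PP (irreducible_iff_prime.1 hρ) (odd_of_dvd hρn (prim_norm_odd hn))
        have hπn : π ∣ n := hass.dvd.trans hρn
        obtain ⟨k, m, hm, hnm⟩ := WfDvdMonoid.max_power_factor hn0 hπ.pr.irreducible
        have hk : 1 ≤ k := by
          by_contra h2
          have : k = 0 := by omega
          rw [this, pow_zero, one_mul] at hnm
          rw [hnm] at hπn
          exact hm hπn
        have hmp : prim m := prim_cancel (prim_pow hπ.prm k) (by rw [← hnm]; exact hn)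
        have hm0 := prim_ne_zero hmp
        have hlt : nrm m < N := by
          rw [← hN, hnm, nrm_mul]
          have h2 : 1 < nrm (π ^ k) := by
            have h3 : π ∣ π ^ k := dvd_pow_self π (by omega)
            have h4 : nrm π ≤ nrm (π ^ k) := norm_le_of_dvd (pow_ne_zero _ hπ.ne) h3
            have h5 := hπ.nrm_ne_one
            have h6 := nrm_pos' hπ.ne
            omega
          have h3 := nrm_pos' hm0
          nlinarith
        have h2 := ih (nrm m) hlt m rfl hmp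
        rw [hnm, sum_DP_mul hπ hmp hm]
        have e1 : mf (fun π => 1 + ch π) (π ^ k * m) =
            (1 + ch π) * mf (fun π => 1 + ch π) m := by
          unfold mf
          classical
          have h3 : PD (π ^ k * m) = insert π (PD m) := by
            ext ρ
            rw [mem_insert, mem_PD (mul_ne_zero (pow_ne_zero _ hπ.ne) hm0), mem_PD hm0]
            constructor
            · rintro ⟨a1, a2⟩
              rcases a1.pr.dvd_or_dvd a2 with a3 | a3
              · left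
                exact a1.eq_of_dvd hπ (a1.pr.dvd_of_dvd_pow a3)
              · right
                exact ⟨a1, a3⟩
            · rintro (rfl | ⟨a1, a2⟩)
              · exact ⟨hπ, (dvd_pow_self _ (by omega)).mul_right _⟩
              · exact ⟨a1, a2.mul_left _⟩
          rw [h3, prod_insert]
          rw [mem_PD hm0]
          exact fun h4 => hm h4.2
        rw [e1]
        have e3 : ∀ j, ch (π ^ j) = (ch π) ^ j := by
          intro j
          induction j with
          | zero => rw [pow_zero, pow_zero, ch_one]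
          | succ j ih => rw [pow_succ, pow_succ, ch_mul (prim_pow hπ.prm j) hπ.prm, ih]
        have e2 : ∀ j, ∑ d ∈ DP m, ch (π ^ j * d) = (ch π) ^ j * ∑ d ∈ DP m, ch d := by
          intro j
          rw [mul_sum]
          refine sum_congr rfl fun d hd => ?_
          rw [ch_mul (prim_pow hπ.prm j) ((mem_DP hm0).1 hd).1, e3]
        rw [sum_congr rfl fun j _ => e2 j, ← sum_mul]
        have h3 := sgn_sum (hχ π) hk
        have h4 : (0 : ℝ) ≤ 1 + ch π := by
          rcases hχ π with h | h | h <;> rw [h] <;> norm_num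
        exact mul_le_mul h3 h2 (hnn m) (h4.trans h3)
  intro n hn
  exact key _ n rfl hn

lemma nrm_eight : nrm (8 : ZI) = 64 := by
  have h := nrm_eq' (8 : ZI)
  have h1 : (8 : ZI).re = 8 := rfl
  have h2 : (8 : ZI).im = 0 := rfl
  rw [h1, h2] at h
  omega

/-- character sums -/
lemma ch_sum {v : ℕ} (hv : 1 ≤ v) : |∑ d ∈ PB v, ch d| ≤ 576 * Real.sqrt v := by
  classical
  obtain ⟨f, hf⟩ : ∃ f : ZI → ℝ, f = fun a => if prim a then ch a else 0 := ⟨_, rfl⟩
  have hcP : prim (⟨3, 2⟩ : ZI) := ⟨by norm_num, by norm_num⟩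
  have hcch : ch (⟨3, 2⟩ : ZI) = -1 := by
    have h := nrm_eq' (⟨3, 2⟩ : ZI)
    have h1 : nrm (⟨3, 2⟩ : ZI) = 13 := by
      simp only at h
      omega
    unfold ch
    rw [h1, if_pos (by norm_num)]
  have h := csum (q := (8 : ZI)) (f := f) (by
      intro h
      have := congrArg Zsqrtd.re h
      exact absurd this (by decide)) ?_ ?_ (c := ⟨3, 2⟩) ?_ ?_ v
  · have e : ∑ a ∈ ZB v, f a = ∑ d ∈ PB v, ch d := by
      unfold PB
      rw [sum_filter, hf]
    rw [e, nrm_eight] at h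
    have h2 : (1 : ℝ) ≤ Real.sqrt v := Real.one_le_sqrt.2 (by exact_mod_cast hv)
    refine h.trans ?_
    push_cast
    linarith
  · intro a b hab
    obtain ⟨w, hw⟩ := hab
    have h1 : a.re = b.re + 8 * w.re := by
      have := congrArg Zsqrtd.re hw
      have h8 : (8 : ZI).re = 8 := rfl
      have h8' : (8 : ZI).im = 0 := rfl
      rw [Zsqrtd.re_sub, Zsqrtd.re_mul, h8, h8'] at this
      linarith
    have h2 : a.im = b.im + 8 * w.im := by
      have := congrArg Zsqrtd.im hw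
      have h8 : (8 : ZI).re = 8 := rfl
      have h8' : (8 : ZI).im = 0 := rfl
      rw [Zsqrtd.im_sub, Zsqrtd.im_mul, h8, h8'] at this
      linarith
    have h3 : prim a ↔ prim b := by
      unfold prim
      rw [h1, h2]
      constructor
      · rintro ⟨a1, a2⟩
        exact ⟨by omega, by omega⟩
      · rintro ⟨a1, a2⟩
        exact ⟨by omega, by omega⟩
    have h4 : nrm a % 8 = nrm b % 8 := by
      have e1 := nrm_eq' a
      have e2 := nrm_eq' b
      rw [h1, h2] at e1
      have e3 : (nrm a : ℤ) = nrm b + 8 * (2 * b.re * w.re + 8 * w.re ^ 2 + 2 * b.im * w.im + 8 * w.im ^ 2) := by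
        rw [e1, e2]
        ring
      generalize 2 * b.re * w.re + 8 * w.re ^ 2 + 2 * b.im * w.im + 8 * w.im ^ 2 = t at e3
      omega
    rw [hf]
    simp only [h3]
    unfold ch
    rw [h4]
  · intro a
    rw [hf]
    simp only
    split_ifs
    · rcases ch_cases a with h | h | h <;> rw [h] <;> simp
    · simp
  · refine ⟨5 * ⟨3, -2⟩, -8, ?_⟩
    ext <;> simp
  · intro a
    rw [hf]
    simp only
    by_cases ha : prim a
    · rw [if_pos (prim_mul hcP ha), if_pos ha, ch_mul hcP ha, hcch]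
      ring
    · rw [if_neg (fun h => ha (prim_cancel hcP h)), if_neg ha, neg_zero]

/-- partial sums of the L-series at 1 -/
theorem ch_log (Y : ℕ) : |∑ d ∈ PB Y, ch d / nrm d| ≤ 1728 := by
  classical
  rcases Nat.eq_zero_or_pos Y with h0 | hY
  · have : PB Y = ∅ := by
      rw [eq_empty_iff_forall_notMem]
      intro x hx
      rw [mem_PB] at hx
      have := nrm_pos' (prim_ne_zero hx.2)
      omega
    rw [this, sum_empty, abs_zero]
    norm_num
  have hYr : (0 : ℝ) < Y := by exact_mod_cast hY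
  have e1 : ∑ d ∈ PB Y, ch d / nrm d = (∑ d ∈ PB Y, ch d) * (1 / Y) +
      ∑ v ∈ Ico 1 Y, (∑ d ∈ PB v, ch d) * (1 / ((v : ℝ) * (v + 1))) := by
    have e2 : ∀ d ∈ PB Y, ch d / nrm d = ch d * (1 / Y) +
        ∑ v ∈ Ico 1 Y, if nrm d ≤ v then ch d * (1 / ((v : ℝ) * (v + 1))) else 0 := by
      intro d hd
      rw [mem_PB] at hd
      have hd1 := nrm_pos' (prim_ne_zero hd.2)
      have h2 := inv_tel (nrm d) hd1 Y hd.1
      rw [div_eq_mul_one_div, h2, mul_add, mul_sum]
      congr 1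
      rw [← sum_filter]
      refine sum_congr ?_ fun _ _ => rfl
      ext v
      rw [mem_filter, mem_Ico, mem_Ico]
      constructor
      · rintro ⟨a1, a2⟩; exact ⟨⟨by omega, a2⟩, a1⟩
      · rintro ⟨⟨-, a2⟩, a1⟩; exact ⟨a1, a2⟩
    rw [sum_congr rfl e2, sum_add_distrib, ← sum_mul, sum_comm]
    congr 1
    refine sum_congr rfl fun v hv => ?_
    rw [mem_Ico] at hv
    rw [← sum_filter, ← sum_mul]
    congr 1
    refine sum_congr ?_ fun _ _ => rfl
    ext d
    rw [mem_filter, mem_PB, mem_PB]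
    constructor
    · rintro ⟨⟨-, a2⟩, a1⟩; exact ⟨a1, a2⟩
    · rintro ⟨a1, a2⟩; exact ⟨⟨by omega, a2⟩, a1⟩
  rw [e1]
  refine (abs_add_le _ _).trans ?_
  have hs1 : 1 ≤ Real.sqrt Y := Real.one_le_sqrt.2 (by exact_mod_cast hY)
  have hss : Real.sqrt Y * Real.sqrt Y = Y := Real.mul_self_sqrt hYr.le
  have e3 : |(∑ d ∈ PB Y, ch d) * (1 / Y)| ≤ 576 := by
    rw [abs_mul, abs_of_pos (show (0 : ℝ) < 1 / Y by positivity), mul_one_div, div_le_iff₀ hYr]
    refine (ch_sum hY).trans ?_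
    nlinarith
  have e4 : ∀ v ∈ Ico 1 Y, |(∑ d ∈ PB v, ch d) * (1 / ((v : ℝ) * (v + 1)))| ≤
      576 * (Real.sqrt v / (v * (v + 1))) := by
    intro v hv
    rw [mem_Ico] at hv
    have v0 : (0 : ℝ) < v := by exact_mod_cast hv.1
    have hp : (0 : ℝ) < 1 / ((v : ℝ) * (v + 1)) := by positivity
    rw [abs_mul, abs_of_pos hp]
    calc |∑ d ∈ PB v, ch d| * (1 / ((v : ℝ) * (v + 1))) ≤
          (576 * Real.sqrt v) * (1 / ((v : ℝ) * (v + 1))) :=
          mul_le_mul_of_nonneg_right (ch_sum hv.1) hp.le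
      _ = 576 * (Real.sqrt v / (v * (v + 1))) := by ring
  have e5 : |∑ v ∈ Ico 1 Y, (∑ d ∈ PB v, ch d) * (1 / ((v : ℝ) * (v + 1)))| ≤ 1152 := by
    refine (abs_sum_le_sum_abs _ _).trans ((sum_le_sum e4).trans ?_)
    rw [← mul_sum]
    have h3 := sqrt_tel 1 le_rfl Y hY
    rw [Nat.cast_one, Real.sqrt_one] at h3
    have h5 : (0 : ℝ) ≤ 1 / Real.sqrt Y := by positivity
    linarith
  linarith

/-- expanding the product `1 + h` -/
theorem conv1 {h : ZI → ℝ} (h0 : ∀ π, 0 ≤ h π) (V : ℕ) :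
    ∑ n ∈ PB V, mf (fun π => 1 + h π) n / nrm n ≤
      (∑ d ∈ SB V, mf h d / nrm d) * ∑ m ∈ PB V, (1 : ℝ) / nrm m := by
  classical
  have e1 : ∑ n ∈ PB V, mf (fun π => 1 + h π) n / nrm n =
      ∑ x ∈ (PB V).sigma (fun n => (PD n).powerset), (∏ π ∈ x.2, h π) / nrm x.1 := by
    rw [sum_sigma]
    refine sum_congr rfl fun n _ => ?_
    unfold mf
    rw [prod_one_add, sum_div]
  rw [e1, sum_mul_sum, ← sum_product']
  have key : ∀ x ∈ (PB V).sigma (fun n => (PD n).powerset), ∃ m, x.1 = (∏ π ∈ x.2, π) * m ∧ prim m ∧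
      PS (∏ π ∈ x.2, π) ∧ PD (∏ π ∈ x.2, π) = x.2 := by
    rintro ⟨n, s⟩ hx
    rw [mem_sigma, mem_PB, mem_powerset] at hx
    simp only at hx ⊢
    have hn0 := prim_ne_zero hx.1.2
    have hs : ∀ π ∈ s, PP π := fun π hπ => ((mem_PD hn0).1 (hx.2 hπ)).1
    obtain ⟨k1, k2⟩ := PS_prod hs
    have hd : (∏ π ∈ s, π) ∣ n := by
      refine Finset.prod_dvd_of_coprime ?_ ?_
      · intro π hπ ρ hρ hne
        exact (hs π hπ).cop (hs ρ hρ) hne
      · intro π hπ
        exact ((mem_PD hn0).1 (hx.2 hπ)).2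
    obtain ⟨m, hm⟩ := hd
    exact ⟨m, hm, prim_cancel k1.prm (by rw [← hm]; exact hx.1.2), k1, k2⟩
  choose! m hm using key
  refine sum_le_inj (fun x => ((∏ π ∈ x.2, π), m x)) ?_ ?_ ?_ ?_
  · intro x hx
    obtain ⟨a1, a2, a3, a4⟩ := hm x hx
    rw [mem_sigma, mem_PB] at hx
    rw [mem_product, mem_SB, mem_PB]
    simp only
    have b1 : nrm (∏ π ∈ x.2, π) * nrm (m x) ≤ V := by
      rw [← nrm_mul, ← a1]
      exact hx.1.1
    have b2 := nrm_pos' a3.ne
    have b3 := nrm_pos' (prim_ne_zero a2)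
    exact ⟨⟨(Nat.le_mul_of_pos_right _ b3).trans b1, a3⟩, (Nat.le_mul_of_pos_left _ b2).trans b1, a2⟩
  · rintro ⟨n, s⟩ hx ⟨n', s'⟩ hy hxy
    obtain ⟨a1, a2, a3, a4⟩ := hm _ hx
    obtain ⟨b1, b2, b3, b4⟩ := hm _ hy
    rw [Prod.mk.injEq] at hxy
    simp only at hxy a1 a2 a3 a4 b1 b2 b3 b4
    have c1 : s = s' := by rw [← a4, ← b4, hxy.1]
    have c2 : n = n' := by rw [a1, b1, hxy.1, hxy.2]
    subst c1
    subst c2
    rfl
  · rintro ⟨n, s⟩ hx
    obtain ⟨a1, a2, a3, a4⟩ := hm _ hx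
    simp only at a1 a2 a3 a4 ⊢
    have c1 : mf h (∏ π ∈ s, π) = ∏ π ∈ s, h π := by
      unfold mf
      rw [a4]
    rw [c1, div_mul_div_comm, mul_one]
    conv_lhs => rw [a1, nrm_mul]
    push_cast
    exact le_rfl
  · intro x _
    exact mul_nonneg (div_nonneg (mf_nonneg h0 _) (Nat.cast_nonneg _)) (by positivity)

/-- JOB GN-HA4 -/
theorem ha4 : Q155.GN.S_HA4 := by
  classical
  refine ⟨2373, by norm_num, fun T hT => ?_⟩
  obtain ⟨h, hh⟩ : ∃ h : ZI → ℝ, h = fun π => if nrm π % 8 = 5 then (0 : ℝ) else 1 := ⟨_, rfl⟩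
  have h0 : ∀ π, 0 ≤ h π := fun π => by
    rw [hh]
    simp only
    split_ifs <;> norm_num
  have h1 : ∀ π, h π ≤ 1 := fun π => by
    rw [hh]
    simp only
    split_ifs <;> norm_num
  have hl := one_le_lg T
  have hl0 := lg_pos T
  -- the logarithmic mean of h
  have b1 : (∑ n ∈ SB (T ^ 2), mf h n / nrm n) ^ 2 ≤ 124609 * lg T := by
    refine (hall2 h0 h1 (T ^ 2)).trans ?_
    have e1 : (fun π : ZI => 2 * h π) = fun π => 1 + ch π := by
      funext π
      rw [hh]
      unfold ch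
      simp only
      split_ifs <;> norm_num
    rw [e1]
    have e2 : ∑ n ∈ PB ((T ^ 2) ^ 2), mf (fun π => 1 + ch π) n / nrm n ≤
        ∑ n ∈ PB ((T ^ 2) ^ 2), (∑ d ∈ DP n, ch d) / nrm n := by
      refine sum_le_sum fun n hn => ?_
      exact div_le_div_of_nonneg_right (conv_le' n (mem_PB.1 hn).2) (Nat.cast_nonneg _)
    rw [conv_sum] at e2
    refine e2.trans ?_
    have e3 : ∀ k ∈ PB ((T ^ 2) ^ 2), (1 / (nrm k : ℝ)) * ∑ d ∈ PB ((T ^ 2) ^ 2 / nrm k), ch d / nrm d ≤
        1728 * (1 / nrm k) := by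
      intro k _
      rw [mul_comm]
      exact mul_le_mul_of_nonneg_right ((le_abs_self _).trans (ch_log _)) (by positivity)
    refine (sum_le_sum e3).trans ?_
    rw [← mul_sum]
    have e4 := hsum ((T ^ 2) ^ 2)
    have e5 := lg_sq (T ^ 2)
    have e6 := lg_sq T
    linarith
  have b2 : ∑ n ∈ SB (T ^ 2), mf h n / nrm n ≤ 353 * Real.sqrt (lg T) := by
    have b3 : 0 ≤ 353 * Real.sqrt (lg T) := by positivity
    refine le_of_sq_le_sq ?_ b3
    rw [mul_pow, Real.sq_sqrt hl0.le]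
    refine b1.trans (le_of_eq ?_)
    norm_num
  have hA : ∑ n ∈ PB (T ^ 2), mf (fun π => 2 * (if nrm π % 8 = 5 then (1 / 2 : ℝ) else 1)) n / nrm n ≤
      (12708 * Real.sqrt (lg T)) * lg T := by
    have e1 : (fun π : ZI => 2 * (if nrm π % 8 = 5 then (1 / 2 : ℝ) else 1)) = fun π => 1 + h π := by
      funext π
      rw [hh]
      simp only
      split_ifs <;> norm_num
    rw [e1]
    refine (conv1 h0 (T ^ 2)).trans ?_
    have e4 := hsum (T ^ 2)
    have e5 := lg_sq T
    have e6 : ∑ k ∈ PB (T ^ 2), (1 : ℝ) / nrm k ≤ 36 * lg T := by linarith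
    have e7 : 0 ≤ ∑ k ∈ PB (T ^ 2), (1 : ℝ) / nrm k := sum_nonneg fun _ _ => by positivity
    calc (∑ d ∈ SB (T ^ 2), mf h d / nrm d) * ∑ m ∈ PB (T ^ 2), (1 : ℝ) / nrm m ≤
          (353 * Real.sqrt (lg T)) * (36 * lg T) :=
        mul_le_mul b2 e6 e7 (by positivity)
      _ = (12708 * Real.sqrt (lg T)) * lg T := by ring
  have hA1 : 1 ≤ 12708 * Real.sqrt (lg T) := by
    have := Real.one_le_sqrt.2 hl
    linarith
  have h2 := hall_aux (g := fun π => if nrm π % 8 = 5 then (1 / 2 : ℝ) else 1)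
    (fun π => by split_ifs <;> norm_num)
    (fun π => by split_ifs <;> norm_num) hT hA1 hA
  refine h2.trans ?_
  have e : Real.sqrt (12708 * Real.sqrt (lg T)) ≤ 113 * Real.sqrt (Real.sqrt (lg T)) := by
    rw [Real.sqrt_mul (by norm_num)]
    apply mul_le_mul_of_nonneg_right _ (Real.sqrt_nonneg _)
    rw [Real.sqrt_le_left (by norm_num)]
    norm_num
  have e2 : Real.sqrt (Real.sqrt (lg T)) / Real.sqrt (lg T) = (lg T) ^ (-(1 / 4) : ℝ) := by
    rw [Real.sqrt_eq_rpow, Real.sqrt_eq_rpow, ← Real.rpow_mul hl0.le, ← Real.rpow_sub hl0]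
    norm_num
  have hTr : (0 : ℝ) ≤ T := Nat.cast_nonneg _
  calc 21 * Real.sqrt (12708 * Real.sqrt (lg T)) * (T / Real.sqrt (lg T)) ≤
        21 * (113 * Real.sqrt (Real.sqrt (lg T))) * (T / Real.sqrt (lg T)) := by
        gcongr
    _ = 2373 * (T * (Real.sqrt (Real.sqrt (lg T)) / Real.sqrt (lg T))) := by ring
    _ = 2373 * (T * (lg T) ^ (-(1 / 4) : ℝ)) := by rw [e2]

end Pool.Agent.Q121.GN
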